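import Pool.Agent.helper26.IM.SpecA

/-! Module im:INA (helper63): the equation near an ultrafilter on `X × Y × Z`. -/

set_option autoImplicit false

open Finset

namespace Pool.Agent.helper26.IM

open Pool.Agent.RRank Pool.Agent.helper35.MR

/-- germs of finite sums of products of functions of one variable -/
def INA_P {X Y Z K : Type} [Field K] (𝓅 : Ultrafilter (X × Y × Z)) (u : UF 𝓅 (fun _ => K)) : Prop :=
  ∃ (ι : Type) (_ : Fintype ι) (a : X → ι → K) (b : Y → ι → K) (c : Z → ι → K),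
    u = UF.mk 𝓅 (fun ω => ∑ s, a ω.1 s * b ω.2.1 s * c ω.2.2 s)

section
variable {X Y Z K : Type} [Field K] {𝓅 : Ultrafilter (X × Y × Z)}

/-- the germs of functions of one variable -/
def INA_s (K : Type) [Field K] (𝓅 : Ultrafilter (X × Y × Z)) : Set (UF 𝓅 (fun _ => K)) :=
  {u | (∃ f : X → K, u = UF.mk 𝓅 (fun ω => f ω.1)) ∨ (∃ f : Y → K, u = UF.mk 𝓅 (fun ω => f ω.2.1)) ∨
    ∃ f : Z → K, u = UF.mk 𝓅 (fun ω => f ω.2.2)}

theorem INA_closure (u : UF 𝓅 (fun _ => K)) (hu : u ∈ Subring.closure (INA_s K 𝓅)) : INA_P 𝓅 u := by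
  classical
  induction hu using Subring.closure_induction with
  | mem u hu =>
    rcases hu with ⟨f, rfl⟩ | ⟨f, rfl⟩ | ⟨f, rfl⟩
    · exact ⟨Unit, inferInstance, fun x _ => f x, fun _ _ => 1, fun _ _ => 1, by simp⟩
    · exact ⟨Unit, inferInstance, fun _ _ => 1, fun x _ => f x, fun _ _ => 1, by simp⟩
    · exact ⟨Unit, inferInstance, fun _ _ => 1, fun _ _ => 1, fun x _ => f x, by simp⟩
  | zero =>
    refine ⟨Empty, inferInstance, fun _ e => e.elim, fun _ e => e.elim, fun _ e => e.elim, ?_⟩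
    rw [← map_zero (UF.mk 𝓅)]
    congr 1
  | one =>
    refine ⟨Unit, inferInstance, fun _ _ => 1, fun _ _ => 1, fun _ _ => 1, ?_⟩
    rw [← map_one (UF.mk 𝓅)]
    congr 1
    funext ω
    simp
  | add u v _ _ hu hv =>
    obtain ⟨ι, _, a, b, c, rfl⟩ := hu
    obtain ⟨ι', _, a', b', c', rfl⟩ := hv
    refine ⟨ι ⊕ ι', inferInstance, fun x => Sum.elim (a x) (a' x), fun x => Sum.elim (b x) (b' x),
      fun x => Sum.elim (c x) (c' x), ?_⟩
    rw [← map_add]
    congr 1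
    funext ω
    rw [Pi.add_apply, Fintype.sum_sum_type]
    rfl
  | neg u _ hu =>
    obtain ⟨ι, _, a, b, c, rfl⟩ := hu
    refine ⟨ι, inferInstance, fun x s => - a x s, b, c, ?_⟩
    rw [← map_neg]
    congr 1
    funext ω
    rw [Pi.neg_apply, ← Finset.sum_neg_distrib]
    exact Finset.sum_congr rfl fun s _ => by ring
  | mul u v _ _ hu hv =>
    obtain ⟨ι, _, a, b, c, rfl⟩ := hu
    obtain ⟨ι', _, a', b', c', rfl⟩ := hv
    refine ⟨ι × ι', inferInstance, fun x s => a x s.1 * a' x s.2, fun x s => b x s.1 * b' x s.2,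
      fun x s => c x s.1 * c' x s.2, ?_⟩
    rw [← map_mul]
    congr 1
    funext ω
    rw [Pi.mul_apply, Finset.sum_mul_sum, Fintype.sum_prod_type]
    exact Finset.sum_congr rfl fun s _ => Finset.sum_congr rfl fun t _ => by ring

end

theorem INA (hTPO : TPO_stmt) : INA_stmt := by
  classical
  intro l hl K _ _ X Y Z T hT hF 𝓅
  obtain ⟨τ, hτ⟩ : ∃ τ : UF 𝓅 (fun _ : X × Y × Z => K),
      τ = UF.mk 𝓅 (fun ω => T ω.1 ω.2.1 ω.2.2) := ⟨_, rfl⟩
  have h1 : τ ∈ (integralClosure (Subring.closure (INA_s K 𝓅)) (UF 𝓅 (fun _ => K))).toSubring := by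
    rw [← iInf_valuationSubring_superset]
    rw [Subring.mem_iInf]
    intro V
    rw [hτ]
    have hV := V.2
    exact hTPO l hl K X Y Z T hT hF (X × Y × Z) 𝓅 V.1 (fun ω => ω.1) (fun ω => ω.2.1) (fun ω => ω.2.2)
      (fun f => hV (Or.inl ⟨f, rfl⟩)) (fun f => hV (Or.inr (Or.inl ⟨f, rfl⟩)))
      (fun f => hV (Or.inr (Or.inr ⟨f, rfl⟩)))
  have h2 : IsIntegral (Subring.closure (INA_s K 𝓅)) τ := h1
  obtain ⟨p, hp, hp0⟩ := h2
  have hc : ∀ i : Fin p.natDegree, INA_P 𝓅 ((p.coeff (i : ℕ) : Subring.closure (INA_s K 𝓅)) :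
      UF 𝓅 (fun _ => K)) := fun i => INA_closure _ (p.coeff (i : ℕ)).2
  choose ι hι a b c habc using hc
  obtain ⟨q, ⟨e⟩⟩ : ∃ q : ℕ, Nonempty ((Σ i, ι i) ≃ Fin q) := ⟨_, ⟨Fintype.equivFin _⟩⟩
  refine ⟨{ω | T ω.1 ω.2.1 ω.2.2 ^ p.natDegree + ∑ i : Fin p.natDegree,
    (∑ s : ι i, a i ω.1 s * b i ω.2.1 s * c i ω.2.2 s) * T ω.1 ω.2.1 ω.2.2 ^ (i : ℕ) = 0}, ?_, ?_⟩
  · have h3 : UF.mk 𝓅 (fun ω : X × Y × Z => T ω.1 ω.2.1 ω.2.2 ^ p.natDegree + ∑ i : Fin p.natDegree,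
        (∑ s : ι i, a i ω.1 s * b i ω.2.1 s * c i ω.2.2 s) * T ω.1 ω.2.1 ω.2.2 ^ (i : ℕ)) = 0 := by
      have h4 : (fun ω : X × Y × Z => T ω.1 ω.2.1 ω.2.2 ^ p.natDegree + ∑ i : Fin p.natDegree,
          (∑ s : ι i, a i ω.1 s * b i ω.2.1 s * c i ω.2.2 s) * T ω.1 ω.2.1 ω.2.2 ^ (i : ℕ)) =
          (fun ω => T ω.1 ω.2.1 ω.2.2) ^ p.natDegree + ∑ i : Fin p.natDegree,
            (fun ω => ∑ s : ι i, a i ω.1 s * b i ω.2.1 s * c i ω.2.2 s) *
              (fun ω => T ω.1 ω.2.1 ω.2.2) ^ (i : ℕ) := by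
        funext ω
        simp only [Pi.add_apply, Pi.pow_apply, Finset.sum_apply, Pi.mul_apply]
      rw [h4, map_add, map_pow, map_sum]
      simp only [map_mul, map_pow, ← habc, ← hτ]
      rw [Polynomial.eval₂_eq_sum_range, Finset.sum_range_succ, add_comm] at hp0
      have h5 : (algebraMap (Subring.closure (INA_s K 𝓅)) (UF 𝓅 (fun _ => K)))
          (p.coeff p.natDegree) = 1 := by
        rw [show p.coeff p.natDegree = 1 from hp]
        exact map_one _
      rw [h5, one_mul] at hp0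
      rw [← hp0]
      congr 1
      rw [← Fin.sum_univ_eq_sum_range (fun i => (algebraMap (Subring.closure (INA_s K 𝓅))
        (UF 𝓅 (fun _ => K))) (p.coeff i) * τ ^ i)]
      rfl
    exact UF.mk_eq_zero.mp h3
  · refine ⟨p.natDegree, q,
      fun x i s => if (e.symm s).1 = i then a (e.symm s).1 x (e.symm s).2 else 0,
      fun y _ s => b (e.symm s).1 y (e.symm s).2, fun z _ s => c (e.symm s).1 z (e.symm s).2, ?_⟩
    intro x y z hxyz
    have h6 : T x y z ^ p.natDegree + ∑ i : Fin p.natDegree,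
      (∑ s : ι i, a i x s * b i y s * c i z s) * T x y z ^ (i : ℕ) = 0 := hxyz
    refine Eq.trans ?_ h6
    have h7 : ∀ i : Fin p.natDegree,
        (∑ s : Fin q, (if (e.symm s).1 = i then a (e.symm s).1 x (e.symm s).2 else 0) *
          b (e.symm s).1 y (e.symm s).2 * c (e.symm s).1 z (e.symm s).2) =
        ∑ s : ι i, a i x s * b i y s * c i z s := by
      intro i
      rw [Equiv.sum_comp e.symm (fun s : (Σ i, ι i) => (if s.1 = i then a s.1 x s.2 else 0) *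
        b s.1 y s.2 * c s.1 z s.2)]
      rw [Fintype.sum_sigma, Finset.sum_eq_single i]
      · simp
      · intro j _ hj
        refine Finset.sum_eq_zero fun s _ => ?_
        rw [if_neg (show ¬ (⟨j, s⟩ : Σ i, ι i).1 = i from hj)]
        ring
      · intro h
        exact absurd (Finset.mem_univ _) h
    simp only [h7]

end Pool.Agent.helper26.IM
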