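import Pool.Agent.helper26.IM.SpecA

/-! Module im:NFR (helper63): tensors which are not full are sums of less than `card ι` slices. -/

set_option autoImplicit false

open Finset

namespace Pool.Agent.helper26.IM

open Pool.Agent.RRank Pool.Agent.helper35.MR

section
variable {ι K : Type} [Fintype ι] [Field K]

theorem NFR_lin1 (M : ι → ι → ι → K) (v w : ι → K) :
    ∃ L : (ι → K) →ₗ[K] K, ∀ u, L u = ev3 M u v w := by
  refine ⟨{ toFun := fun u => ev3 M u v w, map_add' := ?_, map_smul' := ?_ }, fun u => rfl⟩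
  · intro u u'
    unfold ev3
    simp only [← Finset.sum_add_distrib, Pi.add_apply]
    refine Finset.sum_congr rfl fun i _ => Finset.sum_congr rfl fun j _ =>
      Finset.sum_congr rfl fun k _ => ?_
    ring
  · intro c u
    change (∑ i, ∑ j, ∑ k, M i j k * ((c • u) i * v j * w k)) =
      c * ∑ i, ∑ j, ∑ k, M i j k * (u i * v j * w k)
    simp only [Finset.mul_sum]
    refine Finset.sum_congr rfl fun i _ => Finset.sum_congr rfl fun j _ =>
      Finset.sum_congr rfl fun k _ => ?_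
    rw [Pi.smul_apply, smul_eq_mul]
    ring

theorem NFR_lin2 (M : ι → ι → ι → K) (u w : ι → K) :
    ∃ L : (ι → K) →ₗ[K] K, ∀ v, L v = ev3 M u v w := by
  obtain ⟨L, hL⟩ := NFR_lin1 (fun j i k => M i j k) u w
  exact ⟨L, fun v => by rw [hL, ev3_swap12]⟩

theorem NFR_lin3 (M : ι → ι → ι → K) (u v : ι → K) :
    ∃ L : (ι → K) →ₗ[K] K, ∀ w, L w = ev3 M u v w := by
  obtain ⟨L, hL⟩ := NFR_lin1 (fun k j i => M i j k) v u
  exact ⟨L, fun w => by rw [hL, ev3_swap13]⟩

theorem NFR_proj [DecidableEq ι] (U : Submodule K (ι → K)) :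
    ∃ (a : ℕ) (f : Fin a → ι → K) (w : Fin a → ι → K) (g : ι → ι → K),
      a + Module.finrank K U = Fintype.card ι ∧ (∀ i, g i ∈ U) ∧
      ∀ i, (Pi.single i 1 : ι → K) = g i + ∑ j, f j i • w j := by
  obtain ⟨C, hC⟩ := Submodule.exists_isCompl U
  have h1 := Submodule.finrank_add_eq_of_isCompl hC
  rw [Module.finrank_fintype_fun_eq_card] at h1
  let b := Module.finBasis K C
  have h2 : ∀ i : ι, ∃ u ∈ U, ∃ c : C, u + (c : ι → K) = Pi.single i 1 := by
    intro i
    have h3 : (Pi.single i 1 : ι → K) ∈ U ⊔ C := by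
      rw [hC.sup_eq_top]
      exact Submodule.mem_top
    obtain ⟨u, hu, c, hc, h4⟩ := Submodule.mem_sup.mp h3
    exact ⟨u, hu, ⟨c, hc⟩, h4⟩
  choose g hg c hc using h2
  refine ⟨Module.finrank K C, fun j i => b.repr (c i) j, fun j => (b j : ι → K), g, by omega, hg,
    fun i => ?_⟩
  rw [← hc i]
  congr 1
  have h5 := b.sum_repr (c i)
  have h6 : ((∑ j, b.repr (c i) j • b j : C) : ι → K) = (c i : ι → K) := by rw [h5]
  rw [← h6, Submodule.coe_sum]
  rfl

theorem NFR_single [DecidableEq ι] (M : ι → ι → ι → K) (x y z : ι) :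
    ev3 M (Pi.single x 1) (Pi.single y 1) (Pi.single z 1) = M x y z := by
  unfold ev3
  rw [Finset.sum_eq_single x, Finset.sum_eq_single y, Finset.sum_eq_single z]
  · simp
  · intro k _ hk
    simp [Pi.single_eq_of_ne hk]
  · intro h
    exact absurd (Finset.mem_univ _) h
  · intro k _ hk
    simp [Pi.single_eq_of_ne hk]
  · intro h
    exact absurd (Finset.mem_univ _) h
  · intro k _ hk
    simp [Pi.single_eq_of_ne hk]
  · intro h
    exact absurd (Finset.mem_univ _) h

end

theorem NFR : NFR_stmt := by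
  classical
  intro K _ ι _ M hM
  unfold Full3 at hM
  push Not at hM
  obtain ⟨U, V, W, hd, h0⟩ := hM
  obtain ⟨a, f, w, u, ha, hu, hfu⟩ := NFR_proj U
  obtain ⟨b, f', w', v, hb, hv, hfv⟩ := NFR_proj V
  obtain ⟨c, f'', w'', t, hc, ht, hft⟩ := NFR_proj W
  refine ⟨a, b, c, f, fun i y z => ev3 M (w i) (Pi.single y 1) (Pi.single z 1), f',
    fun j x z => ev3 M (u x) (w' j) (Pi.single z 1), f'', fun k x y => ev3 M (u x) (v y) (w'' k),
    by omega, fun x y z => ?_⟩
  obtain ⟨L1, hL1⟩ := NFR_lin1 M (Pi.single y 1) (Pi.single z 1)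
  obtain ⟨L2, hL2⟩ := NFR_lin2 M (u x) (Pi.single z 1)
  obtain ⟨L3, hL3⟩ := NFR_lin3 M (u x) (v y)
  have e1 : M x y z = ev3 M (u x) (Pi.single y 1) (Pi.single z 1) +
      ∑ i, f i x * ev3 M (w i) (Pi.single y 1) (Pi.single z 1) := by
    rw [← NFR_single M x y z, ← hL1, hfu x, map_add, map_sum, hL1]
    simp only [map_smul, smul_eq_mul]
    simp only [hL1]
  have e2 : ev3 M (u x) (Pi.single y 1) (Pi.single z 1) = ev3 M (u x) (v y) (Pi.single z 1) +
      ∑ j, f' j y * ev3 M (u x) (w' j) (Pi.single z 1) := by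
    rw [← hL2, hfv y, map_add, map_sum, hL2]
    simp only [map_smul, smul_eq_mul]
    simp only [hL2]
  have e3 : ev3 M (u x) (v y) (Pi.single z 1) =
      ∑ k, f'' k z * ev3 M (u x) (v y) (w'' k) := by
    rw [← hL3, hft z, map_add, map_sum, hL3, h0 _ (hu x) _ (hv y) _ (ht z), zero_add]
    simp only [map_smul, smul_eq_mul]
    simp only [hL3]
  rw [e1, e2, e3]
  ring

end Pool.Agent.helper26.IM
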